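import Mathlib

set_option autoImplicit false

/-!
MP_715b63_an, piece KW-FC (captain: helper79): continuous functional calculus in closed algebras of
sections (Weierstrass).
-/

namespace Pool.Agent.KW

section FC

namespace FCAux

/-- iterated product: `pw a n = a ^ (n+1)` -/
def pw {A : Type*} [Mul A] (a : A) : ℕ → A
  | 0 => a
  | n + 1 => pw a n * a

theorem cfcn_pow {A : Type*} [NonUnitalCStarAlgebra A] (a : A) (ha : IsSelfAdjoint a) (n : ℕ) :
    cfcₙ (fun t : ℝ => t ^ (n + 1)) a = pw a n := by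
  induction n with
  | zero => simpa [pw] using cfcₙ_id' ℝ a
  | succ n ih =>
    have h1 : cfcₙ (fun t : ℝ => t ^ (n + 1) * t) a = cfcₙ (fun t : ℝ => t ^ (n + 1)) a * cfcₙ (fun t : ℝ => t) a :=
      cfcₙ_mul (fun t : ℝ => t ^ (n + 1)) (fun t : ℝ => t) a (by fun_prop) (by simp) (by fun_prop) (by simp)
    have h2 : (fun t : ℝ => t ^ (n + 1 + 1)) = fun t : ℝ => t ^ (n + 1) * t := by
      funext t; ring
    rw [h2, h1, ih, cfcₙ_id' ℝ a]
    rfl

theorem poly_mem {Y : Type*} {C : Y → Type*} [∀ y, NonUnitalCStarAlgebra (C y)]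
    (Γ : Set (∀ y, C y))
    (hadd : ∀ a ∈ Γ, ∀ b ∈ Γ, (fun y => a y + b y) ∈ Γ)
    (hsmul : ∀ (c : ℂ), ∀ a ∈ Γ, (fun y => c • a y) ∈ Γ)
    (hmul : ∀ a ∈ Γ, ∀ b ∈ Γ, (fun y => a y * b y) ∈ Γ)
    (a : ∀ y, C y) (ha : a ∈ Γ) (hsa : ∀ y, IsSelfAdjoint (a y)) (r : Polynomial ℝ) :
    (fun y => cfcₙ (fun t : ℝ => t * r.eval t) (a y)) ∈ Γ := by
  have hpw : ∀ n, (fun y => pw (a y) n) ∈ Γ := by
    intro n
    induction n with
    | zero => exact ha
    | succ n ih => exact hmul _ ih _ ha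
  induction r using Polynomial.induction_on' with
  | add p q hp hq =>
    have h := hadd _ hp _ hq
    refine (congrArg (· ∈ Γ) ?_).mpr h
    funext y
    rw [← cfcₙ_add (fun t : ℝ => t * p.eval t) (fun t : ℝ => t * q.eval t) (a := a y)
      (by fun_prop) (by simp) (by fun_prop) (by simp)]
    congr 1
    funext t
    rw [Polynomial.eval_add]; ring
  | monomial n c =>
    have h := hsmul (c : ℂ) _ (hpw n)
    refine (congrArg (· ∈ Γ) ?_).mpr h
    funext y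
    have h1 : (fun t : ℝ => t * (Polynomial.monomial n c).eval t) = fun t : ℝ => c • t ^ (n + 1) := by
      funext t
      rw [Polynomial.eval_monomial, smul_eq_mul]; ring
    rw [h1, cfcₙ_smul c (fun t : ℝ => t ^ (n + 1)) (a y) (by fun_prop) (by simp),
      cfcn_pow (a y) (hsa y) n]
    rfl

end FCAux

open FCAux in
theorem cfcn_mem_of_closed {Y : Type*} {C : Y → Type*} [∀ y, NonUnitalCStarAlgebra (C y)]
    (Γ : Set (∀ y, C y))
    (hadd : ∀ a ∈ Γ, ∀ b ∈ Γ, (fun y => a y + b y) ∈ Γ)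
    (hsmul : ∀ (c : ℂ), ∀ a ∈ Γ, (fun y => c • a y) ∈ Γ)
    (hmul : ∀ a ∈ Γ, ∀ b ∈ Γ, (fun y => a y * b y) ∈ Γ)
    (hcomplete : ∀ a : (∀ y, C y), (∀ ε > 0, ∃ b ∈ Γ, ∀ y, ‖a y - b y‖ ≤ ε) → a ∈ Γ)
    (a : ∀ y, C y) (ha : a ∈ Γ) (hsa : ∀ y, IsSelfAdjoint (a y)) (R : ℝ) (hR : ∀ y, ‖a y‖ ≤ R)
    (φ : ℝ → ℝ) (hφ : Continuous φ) (h0 : φ 0 = 0) :
    (fun y => cfcₙ φ (a y)) ∈ Γ := by
  apply hcomplete
  intro ε hε
  set R' := max R 0 with hR'
  obtain ⟨q, hq⟩ := exists_polynomial_near_of_continuousOn (-R') R' φ hφ.continuousOn (ε / 2)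
    (by positivity)
  have hR'0 : 0 ≤ R' := le_max_right _ _
  obtain ⟨r, hr⟩ : ∃ r : Polynomial ℝ, q - Polynomial.C (q.eval 0) = Polynomial.X * r := by
    have : Polynomial.X ∣ q - Polynomial.C (q.eval 0) := by
      rw [Polynomial.X_dvd_iff, Polynomial.coeff_sub, Polynomial.coeff_C_zero,
        Polynomial.coeff_zero_eq_eval_zero, sub_self]
    exact this
  have hr' : ∀ t : ℝ, t * r.eval t = q.eval t - q.eval 0 := by
    intro t
    have := congrArg (Polynomial.eval t) hr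
    simpa using this.symm
  have hq0 : |q.eval 0| < ε / 2 := by
    have := hq 0 ⟨by linarith, hR'0⟩
    rwa [h0, sub_zero] at this
  refine ⟨_, poly_mem Γ hadd hsmul hmul a ha hsa r, fun y => ?_⟩
  have hsub : cfcₙ φ (a y) - cfcₙ (fun t : ℝ => t * r.eval t) (a y) =
      cfcₙ (fun t : ℝ => φ t - t * r.eval t) (a y) :=
    (cfcₙ_sub φ (fun t : ℝ => t * r.eval t) (a y) hφ.continuousOn h0 (by fun_prop) (by simp)).symm
  rw [hsub]
  apply norm_cfcₙ_le
  intro x hx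
  have hxR : |x| ≤ R' := by
    have h1 : ‖(fun t : ℝ => t) x‖ ≤ ‖cfcₙ (fun t : ℝ => t) (a y)‖ :=
      norm_apply_le_norm_cfcₙ (fun t : ℝ => t) (a y) hx (by fun_prop) (by simp) (hsa y)
    rw [cfcₙ_id' ℝ (a y) (hsa y)] at h1
    exact h1.trans ((hR y).trans (le_max_left _ _))
  have h2 := hq x (abs_le.1 hxR)
  rw [hr', Real.norm_eq_abs]
  have : φ x - (q.eval x - q.eval 0) = -(q.eval x - φ x) + q.eval 0 := by ring
  rw [this]
  calc |-(q.eval x - φ x) + q.eval 0| ≤ |-(q.eval x - φ x)| + |q.eval 0| := abs_add_le _ _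
    _ ≤ ε / 2 + ε / 2 := by rw [abs_neg]; exact add_le_add h2.le hq0.le
    _ = ε := by ring

end FC

end Pool.Agent.KW
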