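import Pool.Agent.Helper79.KW.Base
import Pool.Agent.Helper67.KW.MN1
import Pool.Agent.Helper51.KW.MN2
import Pool.Agent.Helper33.KW.PT1
import Pool.Agent.Helper42.KW.PT2

set_option autoImplicit false

/-!
MP_715b63_an, piece KW-PT3 (captain: helper79): the norm estimate for matrices over a uniformly
locally amenable graph.
-/

open CategoryTheory Topology
open scoped ENNReal

namespace Pool.Agent.KW

section PT

namespace PT3Aux

/-- the property of the partitions given by PT1 -/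
def Good {F : Type*} (adj : F → F → Prop) (S : ℕ) (c : F → F) : Prop :=
  ∀ E : Finset F, (∀ a ∈ E, ∀ b ∈ E, c a = c b) →
        (∀ a ∈ E, ∀ b, c b = c a → b ∈ E) → E.card ≤ S ∧ ConnWithin adj S E

open Classical in
theorem block_le {F : Type*} [Fintype F] (adj : F → F → Prop) (S : ℕ)
    {A : Type*} [NonUnitalCStarAlgebra A] (R : F → F → A)
    (ρ : ℝ) (hρ0 : 0 ≤ ρ)
    (hρ : ∀ E : Finset F, E.Nonempty → E.card ≤ S → ConnWithin adj S E →
      matNorm (fun i j : E => R i j) ≤ ρ)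
    (c : F → F) (hc : Good adj S c) :
    matNorm (fun i j : F => if c i = c j then R i j else 0) ≤ ρ := by
  apply matNorm_le_of_blocks c _ (fun i j h => if_neg h) ρ hρ0
  intro E hE hEc
  obtain ⟨a, ha⟩ := hE
  set E' : Finset F := Finset.univ.filter (fun b => c b = c a) with hE'
  have hsub : ∀ i ∈ E, i ∈ E' := fun i hi => by
    rw [hE', Finset.mem_filter]; exact ⟨Finset.mem_univ _, hEc i hi a ha⟩
  have hmem : ∀ b, b ∈ E' ↔ c b = c a := fun b => by
    rw [hE', Finset.mem_filter]; exact ⟨fun h => h.2, fun h => ⟨Finset.mem_univ _, h⟩⟩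
  have h1 := hc E' (fun x hx y hy => ((hmem x).1 hx).trans ((hmem y).1 hy).symm)
    (fun x hx y hy => (hmem y).2 (hy.trans ((hmem x).1 hx)))
  have h2 := hρ E' ⟨a, hsub a ha⟩ h1.1 h1.2
  have h3 : matNorm (fun i j : E => (fun i j : E' => R i j) ⟨i.1, hsub _ i.2⟩ ⟨j.1, hsub _ j.2⟩) ≤
      matNorm (fun i j : E' => R i j) :=
    matNorm_submatrix_le (fun i : E => (⟨i.1, hsub _ i.2⟩ : E'))
      (fun i j h => Subtype.ext (congrArg (fun z : E' => z.1) h)) (fun i j : E' => R i j)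
  have h4 : (fun i j : E => if c i = c j then R i j else 0) =
      (fun i j : E => (fun i j : E' => R i j) ⟨i.1, hsub _ i.2⟩ ⟨j.1, hsub _ j.2⟩) := by
    funext i j
    exact if_pos (hEc _ i.2 _ j.2)
  rw [h4]
  exact h3.trans h2

theorem avg_le {Z F A : Type*} [Fintype Z] [Fintype F] [NonUnitalCStarAlgebra A] (p : Z → ℝ)
    (hp0 : ∀ z, 0 ≤ p z) (hp1 : ∑ z, p z = 1) (M : Z → F → F → A) (ρ : ℝ)
    (h : ∀ z, matNorm (M z) ≤ ρ) :
    matNorm (fun i j => ∑ z, (p z : ℂ) • M z i j) ≤ ρ := by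
  refine (matNorm_sum_le Finset.univ (fun (z : Z) i j => (p z : ℂ) • M z i j)).trans ?_
  have h1 : ∀ z ∈ (Finset.univ : Finset Z),
      matNorm (fun i j => (p z : ℂ) • M z i j) ≤ p z * ρ := by
    intro z _
    rw [matNorm_smul (p z : ℂ) (M z), Complex.norm_real, Real.norm_of_nonneg (hp0 z)]
    exact mul_le_mul_of_nonneg_left (h z) (hp0 z)
  refine (Finset.sum_le_sum h1).trans ?_
  rw [← Finset.sum_mul, hp1, one_mul]

theorem off_le {F A : Type*} [Fintype F] [NonUnitalCStarAlgebra A] (n : ℕ)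
    (T : Fin n → F → F → A) (C : ℝ) (hC : 0 ≤ C)
    (hrow : ∀ k i j j', T k i j ≠ 0 → T k i j' ≠ 0 → j = j')
    (hcol : ∀ k i i' j, T k i j ≠ 0 → T k i' j ≠ 0 → i = i') (hnorm : ∀ k i j, ‖T k i j‖ ≤ C)
    (q : F → F → ℝ) (hq0 : ∀ i j, 0 ≤ q i j) (δ : ℝ) (hδ : 0 ≤ δ)
    (hq : ∀ k i j, T k i j ≠ 0 → q i j ≤ δ) :
    matNorm (fun i j => ∑ k, (q i j : ℂ) • T k i j) ≤ δ * n * C := by
  refine (matNorm_sum_le Finset.univ (fun (k : Fin n) i j => (q i j : ℂ) • T k i j)).trans ?_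
  have h1 : ∀ k ∈ (Finset.univ : Finset (Fin n)),
      matNorm (fun i j => (q i j : ℂ) • T k i j) ≤ δ * C := by
    intro k _
    have hT : ∀ i j, (q i j : ℂ) • T k i j ≠ 0 → T k i j ≠ 0 := by
      intro i j h h0
      rw [h0, smul_zero] at h
      exact h rfl
    refine matNorm_le_of_entries _ (δ * C) (by positivity) ?_ ?_ ?_
    · intro i j j' h h'
      exact hrow k i j j' (hT _ _ h) (hT _ _ h')
    · intro i i' j h h'
      exact hcol k i i' j (hT _ _ h) (hT _ _ h')
    · intro i j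
      by_cases h0 : T k i j = 0
      · rw [h0, smul_zero, norm_zero]; positivity
      · rw [norm_smul, Complex.norm_real, Real.norm_of_nonneg (hq0 i j)]
        exact mul_le_mul (hq k i j h0) (hnorm k i j) (norm_nonneg _) hδ
  refine (Finset.sum_le_sum h1).trans (le_of_eq ?_)
  rw [Finset.sum_const, Finset.card_univ, Fintype.card_fin, nsmul_eq_mul]; ring

open Classical in
theorem dec {Z F A : Type*} [Fintype Z] [NonUnitalCStarAlgebra A] (n : ℕ)
    (T : Fin n → F → F → A) (p : Z → ℝ) (hp1 : ∑ z, p z = 1) (c : Z → F → F) (i j : F) :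
    ∑ k, T k i j = ∑ z : Z, ((p z : ℂ) • (if c z i = c z j then ∑ k, T k i j else 0) : A) +
      ∑ k, ((∑ z : Z, if c z i = c z j then 0 else p z : ℝ) : ℂ) • T k i j := by
  have h1 : ∀ k, T k i j = ((∑ z : Z, p z : ℝ) : ℂ) • T k i j := by
    intro k; rw [hp1]; simp
  have h2 : (∑ z : Z, p z : ℝ) = (∑ z : Z, if c z i = c z j then p z else 0) +
      ∑ z : Z, if c z i = c z j then 0 else p z := by
    rw [← Finset.sum_add_distrib]
    refine Finset.sum_congr rfl fun z _ => ?_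
    split_ifs <;> simp
  have h3 : ∑ z : Z, ((p z : ℂ) • (if c z i = c z j then ∑ k, T k i j else 0) : A) =
      ∑ k, ((∑ z : Z, if c z i = c z j then p z else 0 : ℝ) : ℂ) • T k i j := by
    have h4 : ∀ z : Z, ((p z : ℂ) • (if c z i = c z j then ∑ k, T k i j else 0) : A) =
        ∑ k, ((if c z i = c z j then p z else 0 : ℝ) : ℂ) • T k i j := by
      intro z
      split_ifs
      · rw [Finset.smul_sum]
      · simp
    simp_rw [h4]
    rw [Finset.sum_comm]
    refine Finset.sum_congr rfl fun k _ => ?_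
    rw [Complex.ofReal_sum, Finset.sum_smul]
  rw [h3, ← Finset.sum_add_distrib]
  refine Finset.sum_congr rfl fun k _ => ?_
  rw [← add_smul, ← Complex.ofReal_add, ← h2]
  exact h1 k

end PT3Aux

open PT3Aux

open Classical in
/-- PT3: the norm estimate (uses PT1, PT2, MN1, MN2) -/
theorem matNorm_le_of_ula {F : Type*} [Fintype F] (adj : F → F → Prop)
    (hsymm : ∀ a b, adj a b → adj b a) (hirr : ∀ a, ¬ adj a a) (S : ℕ) (ε : ℝ) (hε : 0 < ε)
    (hula : ∀ F' : Finset F, F'.Nonempty → ∀ μ : F → ℝ, (∀ g, 0 < μ g) →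
      ∃ E ⊆ F', E.Nonempty ∧ E.card ≤ S ∧
        ∑ g ∈ E, ∑ g' ∈ (F' \ E).filter (fun g' => adj g g'), min (μ g) (μ g')
          < ε * ∑ g ∈ E, μ g)
    {A : Type*} [NonUnitalCStarAlgebra A] (n : ℕ) (T : Fin n → F → F → A) (C : ℝ) (hC : 0 ≤ C)
    (hrow : ∀ k i j j', T k i j ≠ 0 → T k i j' ≠ 0 → j = j')
    (hcol : ∀ k i i' j, T k i j ≠ 0 → T k i' j ≠ 0 → i = i')
    (hadj : ∀ k i j, T k i j ≠ 0 → i = j ∨ adj i j) (hnorm : ∀ k i j, ‖T k i j‖ ≤ C)
    (ρ : ℝ) (hρ0 : 0 ≤ ρ)
    (hρ : ∀ E : Finset F, E.Nonempty → E.card ≤ S → ConnWithin adj S E →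
      matNorm (fun i j : E => ∑ k, T k i j) ≤ ρ) :
    matNorm (fun i j => ∑ k, T k i j) ≤ ρ + 3 * ε * n * C := by
  -- the space of good partitions
  let Z := {c : F → F // Good adj S c}
  let cut : Z → F × F → Prop := fun z x => adj x.1 x.2 ∧ z.1 x.1 ≠ z.1 x.2
  have hmin : ∀ w : F × F → ℝ, (∀ x, 0 ≤ w x) →
      ∃ z : Z, ∑ x ∈ Finset.univ.filter (fun x => cut z x), w x ≤ (3 * ε) * ∑ x, w x := by
    intro w hw
    obtain ⟨c, hc1, hc2⟩ := exists_partition adj hsymm hirr S ε hε hula (fun a b => w (a, b))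
      (fun a b => hw _)
    refine ⟨⟨c, hc1⟩, ?_⟩
    have e1 : ∑ x ∈ Finset.univ.filter (fun x => cut ⟨c, hc1⟩ x), w x =
        ∑ a, ∑ b ∈ Finset.univ.filter (fun b => adj a b ∧ c a ≠ c b), w (a, b) := by
      rw [Finset.sum_filter, Fintype.sum_prod_type]
      refine Finset.sum_congr rfl fun a _ => ?_
      rw [Finset.sum_filter]
    rw [e1]
    refine hc2.trans ?_
    apply mul_le_mul_of_nonneg_left _ (by positivity)
    rw [Fintype.sum_prod_type]
    refine Finset.sum_le_sum fun a _ => ?_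
    exact Finset.sum_le_sum_of_subset_of_nonneg (Finset.filter_subset _ _) fun b _ _ => hw _
  obtain ⟨p, hp0, hp1, hp2⟩ := exists_distribution cut (3 * ε) hmin
  have hdec := dec n T p hp1 (fun z : Z => z.1)
  rw [show (fun i j => ∑ k, T k i j) = _ from funext fun i => funext fun j => hdec i j]
  refine (matNorm_add_le _ _).trans (add_le_add ?_ ?_)
  · exact avg_le p hp0 hp1 (fun (z : Z) i j => if z.1 i = z.1 j then ∑ k, T k i j else 0) ρ
      (fun z => block_le adj S (fun i j => ∑ k, T k i j) ρ hρ0 hρ z.1 z.2)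
  · refine off_le n T C hC hrow hcol hnorm _ ?_ (3 * ε) (by positivity) ?_
    · intro i j
      refine Finset.sum_nonneg fun z _ => ?_
      split_ifs
      · exact le_rfl
      · exact hp0 z
    · intro k i j h0
      rcases hadj k i j h0 with rfl | hij
      · simp only [if_true, Finset.sum_const_zero]; positivity
      · have h5 := hp2 (i, j)
        rw [Finset.sum_filter] at h5
        refine le_trans (le_of_eq ?_) h5
        refine Finset.sum_congr rfl fun z _ => ?_
        by_cases hz : z.1 i = z.1 j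
        · rw [if_pos hz, if_neg]
          rintro ⟨_, h6⟩
          exact h6 hz
        · rw [if_neg hz, if_pos]
          exact ⟨hij, hz⟩

end PT

end Pool.Agent.KW
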